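import Pool.Agent.H20.Esp.Prime
import Pool.Agent.H20.Esp.TwoMain

/-!
# All six identities for `k = 2`
-/

namespace Pool.Agent.Results.MP_46a37f_co.CaseTwo

open Pool.Agent.H20.Esp

/-- The six equalities for `k = 2` and every `n ≥ 0`. -/
theorem result (n : ℕ) :
    fwdDiff 1 (fun m => R 2 4 m + R 2 4 (m + 1)) n = N 2 n + N 4 n + N 4 (n + 1) ∧
    fwdDiff 1 (R 2 6) n = N 6 n + N 2 (n - 2) - N 3 (n - 2) ∧
    fwdDiff 1 (fun m => R 2 6 m + R 2 6 (m + 1)) n = N 3 n + N 6 n + N 6 (n + 1) ∧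
    fwdDiff 1 (fun m => R 2 9 m + R 2 9 (m + 1) + R 2 9 (m + 2)) n =
      N 3 n + N 9 n + N 9 (n + 1) + N 9 (n + 2) ∧
    fwdDiff 1 (fun m => R 2 10 m + R 2 10 (m + 1)) n = N 5 n + N 10 n + N 10 (n + 1) ∧
    ∀ p : ℕ, p = 1 ∨ p.Prime → fwdDiff 1 (R 2 p) n = N p n :=
  ⟨four n, six n, six' n, nine n, ten n, fun p hp => by
    simpa using last_identity 2 p n (by norm_num) hp⟩

end Pool.Agent.Results.MP_46a37f_co.CaseTwo
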