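import Pool.Agent.H20.Esp.Cross

/-!
# The five equalities for the parts `4, 6, 9, 10` and cross pairs

For every `k ≥ 3` each of the five equalities holds for all `n` exactly when there is no cross
pair; cross pairs are large; and the five equalities hold for all `n ≤ 8k`.
-/

namespace Pool.Agent.Results.MP_46a37f_co.CrossPairs

open Pool.Agent.H20.Esp

/-- (1) the five equivalences, (2) the local form, (3) what a cross pair must satisfy, (4) the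
stable range. -/
theorem result (k : ℕ) (hk : 3 ≤ k) :
    (((∀ n : ℕ, (fwdDiff 1)^[k - 1] (fun m => R k 4 m + R k 4 (m + 1)) n =
        N 2 n + N 4 n + N 4 (n + 1)) ↔ ∀ n, ¬ CrossPair k n 4) ∧
      ((∀ n : ℕ, (fwdDiff 1)^[k - 1] (R k 6) n = N 6 n + N 2 (n - 2) - N 3 (n - 2)) ↔
        ∀ n, ¬ CrossPair k n 6) ∧
      ((∀ n : ℕ, (fwdDiff 1)^[k - 1] (fun m => R k 6 m + R k 6 (m + 1)) n =
        N 3 n + N 6 n + N 6 (n + 1)) ↔ ∀ n, ¬ CrossPair k n 6) ∧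
      ((∀ n : ℕ, (fwdDiff 1)^[k - 1] (fun m => R k 9 m + R k 9 (m + 1) + R k 9 (m + 2)) n =
        N 3 n + N 9 n + N 9 (n + 1) + N 9 (n + 2)) ↔ ∀ n, ¬ CrossPair k n 9) ∧
      ((∀ n : ℕ, (fwdDiff 1)^[k - 1] (fun m => R k 10 m + R k 10 (m + 1)) n =
        N 5 n + N 10 n + N 10 (n + 1)) ↔ ∀ n, ¬ CrossPair k n 10)) ∧
    (∀ (n j : ℕ), j = 4 ∨ j = 6 ∨ j = 9 ∨ j = 10 →
      R k j n ≤ S k j n ∧ (R k j n = S k j n ↔ ¬ CrossPair k n j)) ∧
    (∀ (n j : ℕ) (l m : Nat.Partition n), IsCross k j l m →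
      9 * k + 2 ≤ n ∧ Multiset.card l.parts = Multiset.card m.parts ∧
      2 * k + 1 ≤ Multiset.card l.parts ∧
      ∀ p : ℕ, p.Prime → ∃ x, (x ∈ l.parts ∨ x ∈ m.parts) ∧ x ≠ 1 ∧ ¬ p ∣ x) ∧
    (∀ n : ℕ, n ≤ 8 * k →
      (fwdDiff 1)^[k - 1] (fun m => R k 4 m + R k 4 (m + 1)) n =
        N 2 n + N 4 n + N 4 (n + 1) ∧
      (fwdDiff 1)^[k - 1] (R k 6) n = N 6 n + N 2 (n - 2) - N 3 (n - 2) ∧
      (fwdDiff 1)^[k - 1] (fun m => R k 6 m + R k 6 (m + 1)) n =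
        N 3 n + N 6 n + N 6 (n + 1) ∧
      (fwdDiff 1)^[k - 1] (fun m => R k 9 m + R k 9 (m + 1) + R k 9 (m + 2)) n =
        N 3 n + N 9 n + N 9 (n + 1) + N 9 (n + 2) ∧
      (fwdDiff 1)^[k - 1] (fun m => R k 10 m + R k 10 (m + 1)) n =
        N 5 n + N 10 n + N 10 (n + 1)) := by
  have hk2 : 2 ≤ k := by omega
  refine ⟨⟨iff_two hk2 (Or.inl rfl) _ four, iff_one hk2 (Or.inr (Or.inl rfl)) _ six,
    iff_two hk2 (Or.inr (Or.inl rfl)) _ six', iff_three hk2 (Or.inr (Or.inr (Or.inl rfl))) _ nine,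
    iff_two hk2 (Or.inr (Or.inr (Or.inr rfl))) _ ten⟩, fun n j hj => R_S hk2 hj n, ?_, ?_⟩
  · intro n j l m h
    exact ⟨h.bound.2.1, h.bound.2.2.1, h.bound.2.2.2, h.prime⟩
  · intro n hn
    refine ⟨?_, ?_, ?_, ?_, ?_⟩
    · rw [range_two hk2 (Or.inl rfl) (by omega), four]
    · rw [range_one hk2 (Or.inr (Or.inl rfl)) (by omega), six]
    · rw [range_two hk2 (Or.inr (Or.inl rfl)) (by omega), six']
    · rw [range_three hk2 (Or.inr (Or.inr (Or.inl rfl))) (by omega), nine]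
    · rw [range_two hk2 (Or.inr (Or.inr (Or.inr rfl))) (by omega), ten]

end Pool.Agent.Results.MP_46a37f_co.CrossPairs
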