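import Pool.Agent.H20.Esp.NonInj

/-!
# `E_k` is injective on `P_k(n)` for all `n` exactly when `k ≤ 2`
-/

namespace Pool.Agent.Results.MP_46a37f_co.InjectivityExactlyUpToTwo

open Pool.Agent.H20.Esp

/-- For `k = 1` and `k = 2` the map `E_k` is injective on `P_k(n)` for every `n`; for every `k ≥ 3`
it is not: for every `t ≥ 1` there are two different partitions of `(98 + 161 (k-3)) t`, with `2k`
parts each, which have the same image under `E_k`. -/
theorem result (k : ℕ) (hk : 1 ≤ k) :
    (k ≤ 2 → ∀ n : ℕ, Set.InjOn (fun l : Nat.Partition n => elemSym k l.parts)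
      {l | k ≤ Multiset.card l.parts}) ∧
    (3 ≤ k → ∀ t : ℕ, 1 ≤ t →
      ∃ l m : Nat.Partition ((98 + 161 * (k - 3)) * t), l ≠ m ∧
        Multiset.card l.parts = 2 * k ∧ Multiset.card m.parts = 2 * k ∧
        elemSym k l.parts = elemSym k m.parts) :=
  ⟨(injective_iff k hk).mpr, fun hk3 t ht => exists_collision k t hk3 ht⟩

end Pool.Agent.Results.MP_46a37f_co.InjectivityExactlyUpToTwo
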