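import Pool.Agent.H20.Esp.Prime

/-!
# The identity for `p = 1` and for primes `p`, for every `k ≥ 2`
-/

namespace Pool.Agent.Results.MP_46a37f_co.LastIdentity

open Pool.Agent.H20.Esp

/-- For every `k ≥ 2`, every `n ≥ 0` and every `p` that is `1` or a prime,
`Δ^{k-1} R_{k,p}(n) = N_p(n)`. -/
theorem result (k n p : ℕ) (hk : 2 ≤ k) (hp : p = 1 ∨ p.Prime) :
    (fwdDiff 1)^[k - 1] (R k p) n = N p n :=
  last_identity k p n (by omega) hp

end Pool.Agent.Results.MP_46a37f_co.LastIdentity
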